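import Mathlib
import Pool.Agent.Lib.MP_e968d9_an.Model

/-!
A rational selfmap of the half-plane with a rational left inverse and linear growth is affine.
-/

set_option autoImplicit false

open Filter Topology Set Complex Polynomial
open scoped ComplexConjugate

namespace Pool.Agent.Lib.MP_e968d9_an.FR

/-- `F` is a rational function on the half-plane. -/
def IsRat (F : ℂ → ℂ) : Prop :=
  ∃ P Q : ℂ[X], P ≠ 0 ∧ ∀ z ∈ RHP, P.eval z * F z = Q.eval z

lemma poly_zero {P : ℂ[X]} (h : ∀ z ∈ RHP, P.eval z = 0) : P = 0 :=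
  Polynomial.eq_zero_of_infinite_isRoot P (Set.Infinite.mono (s := RHP) (fun z hz => h z hz)
    (infinite_of_mem_nhds (1 : ℂ) (isOpen_RHP.mem_nhds one_mem_RHP)))

lemma cancel {f g : ℂ → ℂ} (hf : DifferentiableOn ℂ f RHP) (hg : DifferentiableOn ℂ g RHP)
    (h : ∀ z ∈ RHP, f z * g z = 0) (h0 : ¬ ∀ z ∈ RHP, f z = 0) : ∀ z ∈ RHP, g z = 0 :=
  ((hf.analyticOnNhd isOpen_RHP).eq_zero_or_eq_zero_of_mul_eq_zero (hg.analyticOnNhd isOpen_RHP)
    h convex_RHP.isPreconnected).resolve_left h0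

lemma poly_diff (P : ℂ[X]) : DifferentiableOn ℂ (fun z => P.eval z) RHP :=
  P.differentiable.differentiableOn

lemma poly_comp_diff (P : ℂ[X]) {φ : ℂ → ℂ} (hd : DifferentiableOn ℂ φ RHP) :
    DifferentiableOn ℂ (fun z => P.eval (φ z)) RHP :=
  P.differentiable.comp_differentiableOn hd

lemma poly_comp_zero {φ : ℂ → ℂ} (hd : DifferentiableOn ℂ φ RHP) (hm : MapsTo φ RHP RHP)
    (hnc : ¬ ∃ w, ∀ z ∈ RHP, φ z = w) {P : ℂ[X]} (h : ∀ z ∈ RHP, P.eval (φ z) = 0) : P = 0 :=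
  poly_zero (identity_comp (g₂ := fun _ => 0) hd hm hnc (poly_diff P) (differentiableOn_const 0) h)

/-- The homogenisation of `U` evaluated at `P`, `Q`. -/
noncomputable def hom (n : ℕ) (U P Q : ℂ[X]) : ℂ[X] :=
  ∑ i ∈ Finset.range (n + 1), C (U.coeff i) * P ^ i * Q ^ (n - i)

lemma eval_hom {n : ℕ} {U P Q : ℂ[X]} (hU : U.natDegree ≤ n) {z t : ℂ}
    (h : P.eval z = t * Q.eval z) : (hom n U P Q).eval z = U.eval t * Q.eval z ^ n := by
  rw [hom, eval_finsetSum, eval_eq_sum_range' (Nat.lt_succ_of_le hU), Finset.sum_mul]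
  refine Finset.sum_congr rfl fun i hi => ?_
  have hi' : i ≤ n := Nat.lt_succ_iff.1 (Finset.mem_range.1 hi)
  have e : Q.eval z ^ n = Q.eval z ^ i * Q.eval z ^ (n - i) := by
    rw [← pow_add, Nat.add_sub_cancel' hi']
  rw [eval_mul, eval_mul, eval_C, eval_pow, eval_pow, h, e]
  ring

theorem affine_of_rat {φ : ℂ → ℂ} (hd : DifferentiableOn ℂ φ RHP) (hm : MapsTo φ RHP RHP)
    {c : ℝ} (hc : 0 < c) (hre : ∀ z ∈ RHP, c * z.re ≤ (φ z).re) (hr : IsRat φ) {U W : ℂ[X]}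
    (hU : U ≠ 0) (hUW : ∀ z ∈ RHP, z * U.eval (φ z) = W.eval (φ z)) :
    ∃ a b : ℂ, ∀ z ∈ RHP, φ z = a * z + b := by
  have hnc := Hardy.not_const hc hre
  obtain ⟨D, Nn, hD, hDN⟩ := hr
  obtain ⟨Q, P, g, hrel, hQ, hP⟩ := UniqueFactorizationMonoid.exists_reduced_factors D hD Nn
  have hg : g ≠ 0 := fun h0 => hD (by rw [← hQ, h0, zero_mul])
  have hQ0 : Q ≠ 0 := fun h0 => hD (by rw [← hQ, h0, mul_zero])
  have hPQ : ∀ z ∈ RHP, P.eval z = φ z * Q.eval z := by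
    have := cancel (poly_diff g) ((poly_diff P).sub (hd.mul (poly_diff Q))) (fun z hz => by
      have h1 := hDN z hz
      rw [← hQ, ← hP, eval_mul, eval_mul] at h1
      simp only [Pi.sub_apply, Pi.mul_apply]
      linear_combination -h1) (fun h0 => hg (poly_zero h0))
    exact fun z hz => sub_eq_zero.1 (this z hz)
  have hQne : ∀ z t : ℂ, P.eval z = t * Q.eval z → Q.eval z ≠ 0 := by
    intro z t h1 h2
    rw [h2, mul_zero] at h1
    exact not_isUnit_X_sub_C z (hrel (dvd_iff_isRoot.2 h2) (dvd_iff_isRoot.2 h1))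
  have key : ∀ z t : ℂ, P.eval z = t * Q.eval z → z * U.eval t = W.eval t := by
    intro z t h1
    set n := max U.natDegree W.natDegree with hn
    have h2 : X * hom n U P Q - hom n W P Q = 0 := poly_zero fun y hy => by
      rw [eval_sub, eval_mul, eval_X, eval_hom (le_max_left _ _) (hPQ y hy),
        eval_hom (le_max_right _ _) (hPQ y hy), ← hUW y hy]
      ring
    have h3 := congrArg (eval z) h2
    rw [eval_sub, eval_mul, eval_X, eval_hom (le_max_left _ _) h1,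
      eval_hom (le_max_right _ _) h1, eval_zero] at h3
    have h4 : (z * U.eval t - W.eval t) * Q.eval z ^ n = 0 := by linear_combination h3
    exact sub_eq_zero.1 ((mul_eq_zero.1 h4).resolve_right (pow_ne_zero _ (hQne z t h1)))
  have deg : ∀ z₀ ∈ RHP, U.eval (φ z₀) ≠ 0 →
      ∃ e : ℂ, ∀ z : ℂ, P.eval z - φ z₀ * Q.eval z = (z - z₀) * e := by
    intro z₀ hz₀ hU0
    obtain ⟨G, hG⟩ : X - C z₀ ∣ P - C (φ z₀) * Q := dvd_iff_isRoot.2 (by
      rw [IsRoot, eval_sub, eval_mul, eval_C, hPQ z₀ hz₀, sub_self])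
    have hG' : ∀ z : ℂ, P.eval z - φ z₀ * Q.eval z = (z - z₀) * G.eval z := fun z => by
      simpa using congrArg (eval z) hG
    obtain ⟨V, hV⟩ : X - C (φ z₀) ∣ W - C z₀ * U := dvd_iff_isRoot.2 (by
      rw [IsRoot, eval_sub, eval_mul, eval_C, hUW z₀ hz₀, sub_self])
    have hV' : ∀ s : ℂ, W.eval s - z₀ * U.eval s = (s - φ z₀) * V.eval s := fun s => by
      simpa using congrArg (eval s) hV
    have h1 := cancel (f := fun z => z - z₀) (by fun_prop)
      (((poly_comp_diff U hd).mul (poly_diff Q)).sub ((poly_diff G).mul (poly_comp_diff V hd)))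
      (fun z hz => by
        have e1 := hG' z
        have e2 := hV' (φ z)
        have e3 := hUW z hz
        have e4 := hPQ z hz
        simp only [Pi.sub_apply, Pi.mul_apply]
        linear_combination Q.eval z * e3 + Q.eval z * e2 + V.eval (φ z) * e1 - V.eval (φ z) * e4)
      (fun h0 => by
        have h2 := h0 (z₀ + 1) (by
          have : 0 < z₀.re := hz₀
          show 0 < (z₀ + 1).re
          simp
          linarith)
        simp at h2) z₀ hz₀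
    simp only [Pi.sub_apply, Pi.mul_apply] at h1
    have hG0 : G.eval z₀ ≠ 0 := fun h0 => by
      rw [h0, zero_mul, sub_zero] at h1
      exact mul_ne_zero hU0 (hQne z₀ _ (hPQ z₀ hz₀)) h1
    have hdeg : G.degree = 0 := by
      by_contra hne
      obtain ⟨z, hz⟩ := IsAlgClosed.exists_root G hne
      have h2 := hG' z
      rw [hz.eq_zero, mul_zero, sub_eq_zero] at h2
      have h3 := key z _ h2
      rw [← hUW z₀ hz₀] at h3
      rw [mul_right_cancel₀ hU0 h3] at hz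
      exact hG0 hz
    refine ⟨G.coeff 0, fun z => ?_⟩
    rw [hG' z, eq_C_of_degree_eq_zero hdeg, eval_C, coeff_C_zero]
  obtain ⟨z₁, hz₁, h₁⟩ : ∃ z ∈ RHP, U.eval (φ z) ≠ 0 := by
    by_contra hcon
    push Not at hcon
    exact hU (poly_comp_zero hd hm hnc hcon)
  obtain ⟨z₂, hz₂, h₂⟩ : ∃ z ∈ RHP, (U * (X - C (φ z₁))).eval (φ z) ≠ 0 := by
    by_contra hcon
    push Not at hcon
    exact mul_ne_zero hU (X_sub_C_ne_zero _) (poly_comp_zero hd hm hnc hcon)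
  rw [eval_mul, eval_sub, eval_X, eval_C] at h₂
  obtain ⟨e₁, he₁⟩ := deg z₁ hz₁ h₁
  obtain ⟨e₂, he₂⟩ := deg z₂ hz₂ (left_ne_zero_of_mul h₂)
  have hδ : φ z₂ - φ z₁ ≠ 0 := right_ne_zero_of_mul h₂
  obtain ⟨q₁, q₀, hq⟩ : ∃ q₁ q₀ : ℂ, ∀ z, (φ z₂ - φ z₁) * Q.eval z = q₁ * z + q₀ :=
    ⟨e₁ - e₂, z₂ * e₂ - z₁ * e₁, fun z => by linear_combination he₁ z - he₂ z⟩
  obtain ⟨p₁, p₀, hp⟩ : ∃ p₁ p₀ : ℂ, ∀ z ∈ RHP, (q₁ * z + q₀) * φ z = p₁ * z + p₀ :=
    ⟨(φ z₂ - φ z₁) * e₁ + φ z₁ * q₁, φ z₁ * q₀ - (φ z₂ - φ z₁) * z₁ * e₁, fun z hz => by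
      linear_combination (φ z₂ - φ z₁) * he₁ z - (φ z₂ - φ z₁) * hPQ z hz + (φ z₁ - φ z) * hq z⟩
  have hq₁ : q₁ = 0 := by
    by_contra hne
    have hn : 0 < ‖q₁‖ := norm_pos_iff.2 hne
    set K := c * ‖q₀‖ + ‖p₁‖ + ‖p₀‖ with hK
    set s := max 1 ((K + 1) / (c * ‖q₁‖)) with hs
    have hs1 : 1 ≤ s := le_max_left _ _
    have hs2 : K + 1 ≤ s * (c * ‖q₁‖) := (div_le_iff₀ (by positivity)).1 (le_max_right _ _)
    have hs0 : 0 < s := by linarith
    have hsm : (s : ℂ) ∈ RHP := hs0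
    have hsn : ‖(s : ℂ)‖ = s := by rw [Complex.norm_real, Real.norm_of_nonneg hs0.le]
    have e1 : c * s ≤ ‖φ s‖ := le_trans (by simpa using hre s hsm) (re_le_norm _)
    have e2 : ‖q₁‖ * s - ‖q₀‖ ≤ ‖q₁ * s + q₀‖ := by
      have := norm_sub_le (q₁ * s + q₀) q₀
      rw [add_sub_cancel_right, norm_mul, hsn] at this
      linarith
    have e3 : ‖q₁ * s + q₀‖ * ‖φ s‖ ≤ ‖p₁‖ * s + ‖p₀‖ := by
      rw [← norm_mul, hp s hsm]
      refine le_trans (norm_add_le _ _) ?_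
      rw [norm_mul, hsn]
    have e4 : (‖q₁‖ * s - ‖q₀‖) * (c * s) ≤ ‖q₁ * s + q₀‖ * ‖φ s‖ :=
      le_trans (mul_le_mul_of_nonneg_right e2 (by positivity))
        (mul_le_mul_of_nonneg_left e1 (norm_nonneg _))
    have e5 : ‖p₀‖ * 1 ≤ ‖p₀‖ * s := mul_le_mul_of_nonneg_left hs1 (norm_nonneg _)
    have e6 : (K + 1) * s ≤ s * (c * ‖q₁‖) * s := mul_le_mul_of_nonneg_right hs2 hs0.le
    rw [hK] at e6
    nlinarith
  have hq₀ : q₀ ≠ 0 := fun h0 => hQ0 (poly_zero fun z _ => by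
    have := hq z
    rw [hq₁, h0, zero_mul, add_zero] at this
    exact (mul_eq_zero.1 this).resolve_left hδ)
  refine ⟨p₁ / q₀, p₀ / q₀, fun z hz => ?_⟩
  have := hp z hz
  rw [hq₁, zero_mul, zero_add] at this
  field_simp
  linear_combination this

end Pool.Agent.Lib.MP_e968d9_an.FR
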