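import Mathlib
import Pool.Agent.Lib.MP_e968d9_an.FR.Rat

/-!
Multiplication operators on the Hardy space, the Blaschke shift and a Kronecker type theorem.
-/

set_option autoImplicit false

open Filter Topology Set MeasureTheory Complex Polynomial
open scoped ENNReal Real ComplexConjugate InnerProductSpace

namespace Pool.Agent.Lib.MP_e968d9_an.FR

variable {H : Type} [NormedAddCommGroup H] [InnerProductSpace ℂ H] [CompleteSpace H] (h : Hardy H)

lemma L2b_ev (f : H) : L2b (h.ev f) (‖f‖ ^ 2) :=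
  L2b_of_N_le (h.ev_diff f).continuousOn (by positivity) (h.N_ev f).le

lemma norm_sq_le {f g u w : H} (hp : ∀ z ∈ RHP,
    ‖h.ev f z‖ ^ 2 ≤ ‖h.ev g z‖ ^ 2 + 2 * ‖h.ev u z‖ ^ 2 + 2 * ‖h.ev w z‖ ^ 2) :
    ‖f‖ ^ 2 ≤ ‖g‖ ^ 2 + 2 * ‖u‖ ^ 2 + 2 * ‖w‖ ^ 2 := by
  have h1 : L2b (h.ev f) (‖g‖ ^ 2 + 2 * ‖u‖ ^ 2 + 2 * ‖w‖ ^ 2) := by
    intro x hx
    obtain ⟨f1, -⟩ := L2b_ev h f x hx
    obtain ⟨g1, g2⟩ := L2b_ev h g x hx
    obtain ⟨u1, u2⟩ := L2b_ev h u x hx
    obtain ⟨w1, w2⟩ := L2b_ev h w x hx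
    have a1 : Integrable fun y : ℝ => ‖h.ev g (x + y * I)‖ ^ 2 + 2 * ‖h.ev u (x + y * I)‖ ^ 2 :=
      g1.add (u1.const_mul 2)
    have a2 : Integrable fun y : ℝ => ‖h.ev g (x + y * I)‖ ^ 2 + 2 * ‖h.ev u (x + y * I)‖ ^ 2 +
        2 * ‖h.ev w (x + y * I)‖ ^ 2 := a1.add (w1.const_mul 2)
    refine ⟨f1, le_trans (integral_mono f1 a2 fun y => hp _ (line_mem hx y)) ?_⟩
    rw [integral_add a1 (w1.const_mul 2), integral_add g1 (u1.const_mul 2), integral_const_mul,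
      integral_const_mul]
    linarith
  have h2 := h1.N_le
  rw [h.N_ev] at h2
  exact (ENNReal.ofReal_le_ofReal_iff (by positivity)).1 h2

/-- Hyponormality of multiplication by a meromorphic function, in a pointwise form. -/
lemma hypo {g u w v : H} (hc : ∀ z ∈ RHP, h.ev u z * h.ev w z = h.ev g z * h.ev v z) :
    2 * (⟪g, v⟫_ℂ).re ≤ ‖u‖ ^ 2 + ‖w‖ ^ 2 := by
  have h1 := norm_sq_le h (f := g + v) (g := g - v) (u := u) (w := w) (fun z hz => by
    rw [h.ev_add, h.ev_sub]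
    have e1 : ‖h.ev u z‖ * ‖h.ev w z‖ = ‖h.ev g z‖ * ‖h.ev v z‖ := by
      rw [← norm_mul, ← norm_mul, hc z hz]
    have e2 := norm_add_sq (𝕜 := ℂ) (h.ev g z) (h.ev v z)
    have e3 := norm_sub_sq (𝕜 := ℂ) (h.ev g z) (h.ev v z)
    have e4 := re_inner_le_norm (𝕜 := ℂ) (h.ev g z) (h.ev v z)
    nlinarith [sq_nonneg (‖h.ev u z‖ - ‖h.ev w z‖)])
  rw [norm_add_sq (𝕜 := ℂ), norm_sub_sq (𝕜 := ℂ)] at h1
  simp only [RCLike.re_to_complex] at h1
  linarith

lemma exists_mult {m : ℂ → ℂ} (hd : DifferentiableOn ℂ m RHP) (hb : ∀ z ∈ RHP, ‖m z‖ ≤ 1) :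
    ∃ M : H →L[ℂ] H, (∀ f, ∀ v ∈ RHP, h.ev (M f) v = m v * h.ev f v) ∧ ∀ f, ‖M f‖ ≤ ‖f‖ := by
  have h1 : ∀ f : H, ∃ g : H, (∀ v ∈ RHP, h.ev g v = m v * h.ev f v) ∧ ‖g‖ ≤ 1 * ‖f‖ := by
    intro f
    have h2 : N (fun z => m z * h.ev f z) ≤ ENNReal.ofReal (‖f‖ ^ 2) := by
      rw [← h.N_ev]
      refine iSup₂_mono fun x hx => lintegral_mono fun y => ?_
      rw [nnnorm_sq_eq, nnnorm_sq_eq]
      refine ENNReal.ofReal_le_ofReal (pow_le_pow_left₀ (norm_nonneg _) ?_ 2)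
      rw [norm_mul]
      exact mul_le_of_le_one_left (norm_nonneg _) (hb _ (line_mem hx y))
    obtain ⟨g, hg1, hg2⟩ := h.exists_ev (F := fun z => m z * h.ev f z) (hd.mul (h.ev_diff f))
      (lt_of_le_of_lt h2 ENNReal.ofReal_lt_top)
    refine ⟨g, hg1, ?_⟩
    have h3 := (ENNReal.ofReal_le_ofReal_iff (by positivity)).1 (hg2.trans h2)
    rw [one_mul, ← sq_le_sq₀ (norm_nonneg _) (norm_nonneg _)]
    exact h3
  choose T hT1 hT2 using h1
  let T' : H →ₗ[ℂ] H :=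
    { toFun := T
      map_add' := fun f g => h.ext_ev fun v hv => by
        rw [hT1 _ v hv, h.ev_add, h.ev_add, hT1 _ v hv, hT1 _ v hv, mul_add]
      map_smul' := fun c f => h.ext_ev fun v hv => by
        rw [hT1 _ v hv, h.ev_smul, RingHom.id_apply, h.ev_smul, hT1 _ v hv]
        ring }
  exact ⟨T'.mkContinuous _ hT2, hT1, fun f => (hT2 f).trans_eq (one_mul _)⟩

/-- The Blaschke factor at `1`. -/
noncomputable def bl (z : ℂ) : ℂ := (z - 1) / (z + 1)

lemma add_one_ne {z : ℂ} (hz : z ∈ RHP) : z + 1 ≠ 0 := by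
  simpa using add_conj_ne_zero (w := 1) hz (by simp)

lemma bl_diff : DifferentiableOn ℂ bl RHP :=
  DifferentiableOn.div (by fun_prop) (by fun_prop) fun z hz => add_one_ne hz

lemma norm_bl {z : ℂ} (hz : z ∈ RHP) : ‖bl z‖ ≤ 1 := by
  have hz' : 0 < z.re := hz
  have h1 := normSq_add_conj z 1
  rw [map_one, one_re] at h1
  rw [bl, norm_div, div_le_one (norm_pos_iff.2 (add_one_ne hz)),
    ← sq_le_sq₀ (norm_nonneg _) (norm_nonneg _)]
  linarith

lemma bl_ne : ¬ ∀ z ∈ RHP, bl z = 0 := fun h0 => by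
  have := h0 2 (by simp)
  norm_num [bl] at this

omit [CompleteSpace H] in
lemma ev_zero (v : ℂ) : h.ev 0 v = 0 := by simp [Hardy.ev]

omit [CompleteSpace H] in
lemma k_ne {v : ℂ} (hv : v ∈ RHP) : h.k v ≠ 0 := fun h0 => by
  have := h.norm_k_sq hv
  rw [h0, norm_zero] at this
  have h1 : 0 < π / v.re := div_pos Real.pi_pos hv
  linarith

section shift

variable {B : H →L[ℂ] H} (hB : ∀ f, ∀ v ∈ RHP, h.ev (B f) v = bl v * h.ev f v)
include hB

lemma adj_k {w : ℂ} (hw : w ∈ RHP) :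
    ContinuousLinearMap.adjoint B (h.k w) = conj (bl w) • h.k w := by
  refine ext_inner_right ℂ fun f => ?_
  rw [ContinuousLinearMap.adjoint_inner_left, inner_smul_left, h.inner_eq, h.inner_eq, hB f w hw,
    conj_conj]
  ring

lemma decomp (f : H) : f = B (ContinuousLinearMap.adjoint B f) + (2 * h.ev f 1) • h.k 1 := by
  have h1 : ContinuousLinearMap.id ℂ H = B ∘L ContinuousLinearMap.adjoint B +
      (innerSL ℂ (h.k 1)).smulRight ((2 * (2 * π : ℂ)⁻¹) • h.k 1) := by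
    refine ContinuousLinearMap.ext_on h.dense_span ?_
    rintro _ ⟨w, rfl⟩
    have hw := w.2
    refine h.ext_ev fun v hv => ?_
    have e1 := add_one_ne hv
    have e2 : conj (w : ℂ) + 1 ≠ 0 := add_one_ne (z := conj (w : ℂ)) (show 0 < (conj (w : ℂ)).re from hw)
    have e3 := add_conj_ne_zero (w := w) hv (le_of_lt hw)
    have e4 : (1 : ℂ) + conj (w : ℂ) ≠ 0 := by rwa [add_comm]
    have e5 := Hardy.two_pi_ne
    simp only [ContinuousLinearMap.id_apply, add_apply,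
      ContinuousLinearMap.comp_apply, ContinuousLinearMap.smulRight_apply, innerSL_apply_apply]
    rw [adj_k h hB hw, h.ev_add, hB _ v hv, h.ev_smul, h.ev_smul, h.ev_smul, h.ev_k hv hw,
      h.ev_k hv one_mem_RHP, h.inner_k 1 one_mem_RHP w hw]
    simp only [bl, map_div₀, map_sub, map_add, map_one]
    generalize (2 * π : ℂ) = p at e5
    field_simp
    ring
  have h2 := congrArg (fun L : H →L[ℂ] H => L f) h1
  simp only [ContinuousLinearMap.id_apply, add_apply,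
    ContinuousLinearMap.comp_apply, ContinuousLinearMap.smulRight_apply, innerSL_apply_apply] at h2
  rw [smul_smul] at h2
  refine h2.trans ?_
  congr 2
  rw [Hardy.ev]
  ring

lemma shift_inj {f : H} (hf : B f = 0) : f = 0 := by
  refine h.ext_ev fun v hv => ?_
  rw [ev_zero]
  refine cancel bl_diff (h.ev_diff f) (fun z hz => ?_) bl_ne v hv
  rw [← hB f z hz, hf, ev_zero]

lemma adj_shift (f : H) : ContinuousLinearMap.adjoint B (B f) = f := by
  have h1 := decomp h hB (B f)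
  rw [hB f 1 one_mem_RHP, bl, sub_self, zero_div, zero_mul, mul_zero, zero_smul, add_zero] at h1
  rw [← sub_eq_zero]
  refine shift_inj h hB ?_
  rw [map_sub, ← h1, sub_self]

lemma inner_shift (f g : H) : ⟪B f, B g⟫_ℂ = ⟪f, g⟫_ℂ := by
  rw [← ContinuousLinearMap.adjoint_inner_right, adj_shift h hB]

lemma norm_shift (f : H) : ‖B f‖ = ‖f‖ := by
  rw [← sq_eq_sq₀ (norm_nonneg _) (norm_nonneg _), ← inner_self_eq_norm_sq (𝕜 := ℂ),
    ← inner_self_eq_norm_sq (𝕜 := ℂ), inner_shift h hB]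

lemma rat_step {y : H} {l : ℂ}
    (hy : IsRat (h.ev (ContinuousLinearMap.adjoint B y - l • y))) : IsRat (h.ev y) := by
  obtain ⟨P, Q, hP, hPQ⟩ := hy
  refine ⟨P * (X + 1 - C l * (X - 1)), (X - 1) * Q + C (2 * h.ev y 1) * P,
    mul_ne_zero hP fun h0 => ?_, fun z hz => ?_⟩
  · have := congrArg (eval 1) h0
    norm_num at this
  · have h1 := congrArg (fun f => h.ev f z) (decomp h hB y)
    have h2 := hPQ z hz
    have e1 := add_one_ne hz
    rw [h.ev_add, hB _ z hz, h.ev_smul, h.ev_k hz one_mem_RHP, map_one, bl] at h1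
    rw [h.ev_sub, h.ev_smul] at h2
    have h3 : (z + 1) * h.ev y z =
        (z - 1) * h.ev (ContinuousLinearMap.adjoint B y) z + 2 * h.ev y 1 := by
      rw [h1]
      field_simp
    simp only [eval_mul, eval_add, eval_sub, eval_X, eval_C, eval_one]
    linear_combination P.eval z * h3 + (z - 1) * h2

lemma rat_of_invariant {E : Submodule ℂ H} [FiniteDimensional ℂ E]
    (hE : ∀ y ∈ E, ContinuousLinearMap.adjoint B y ∈ E) : ∀ y ∈ E, IsRat (h.ev y) := by
  let L : E →ₗ[ℂ] E := (ContinuousLinearMap.adjoint B : H →ₗ[ℂ] H).restrict hE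
  have key : ∀ n : ℕ, ∀ p : ℂ[X], p.natDegree = n → p ≠ 0 → ∀ y : E, aeval L p y = 0 →
      IsRat (h.ev y) := by
    intro n
    induction n with
    | zero =>
      intro p hp hp0 y hy
      rw [eq_C_of_natDegree_eq_zero hp] at hy hp0
      rw [aeval_C, Module.algebraMap_end_apply] at hy
      have h1 : y = 0 := (smul_eq_zero.1 hy).resolve_left fun h0 => hp0 (by rw [h0, C_0])
      exact ⟨1, 0, one_ne_zero, fun z _ => by simp [h1, ev_zero]⟩
    | succ n ih =>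
      intro p hp hp0 y hy
      obtain ⟨l, hl⟩ := IsAlgClosed.exists_root p (fun h0 => by
        rw [natDegree_eq_zero_iff_degree_le_zero.2 h0.le] at hp
        omega)
      obtain ⟨q, rfl⟩ := dvd_iff_isRoot.2 hl
      have hq0 : q ≠ 0 := right_ne_zero_of_mul hp0
      rw [natDegree_mul (X_sub_C_ne_zero l) hq0, natDegree_X_sub_C] at hp
      rw [mul_comm, map_mul, Module.End.mul_apply] at hy
      have h1 := ih q (by omega) hq0 _ hy
      refine rat_step h hB (l := l) ?_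
      simpa [L, Module.algebraMap_end_apply, LinearMap.restrict_apply] using h1
  intro y hy
  exact key _ L.charpoly rfl L.charpoly_monic.ne_zero ⟨y, hy⟩ (by
    rw [L.aeval_self_charpoly, LinearMap.zero_apply])

lemma rat_of_pow (m : ℕ) : ∀ y : H, IsRat (h.ev ((ContinuousLinearMap.adjoint B ^ m) y)) →
    IsRat (h.ev y) := by
  induction m with
  | zero => intro y hy; simpa using hy
  | succ m ih =>
    intro y hy
    rw [pow_succ, mul_apply_eq_comp] at hy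
    exact rat_step h hB (l := 0) (by simpa using ih _ hy)

lemma exists_poly_vec (E : Submodule ℂ H) [FiniteDimensional ℂ E] :
    ∃ y ∈ Eᗮ, y ≠ 0 ∧ ∃ m : ℕ, (ContinuousLinearMap.adjoint B ^ m) y = 0 := by
  let Z : Submodule ℂ H :=
    { carrier := {y | ∃ m : ℕ, (ContinuousLinearMap.adjoint B ^ m) y = 0}
      add_mem' := by
        rintro a b ⟨m, hm⟩ ⟨n, hn⟩
        refine ⟨m + n, ?_⟩
        rw [map_add]
        nth_rewrite 1 [add_comm m n]
        rw [pow_add, pow_add, mul_apply_eq_comp, mul_apply_eq_comp, hm, hn, map_zero, map_zero,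
          add_zero]
      zero_mem' := ⟨0, map_zero _⟩
      smul_mem' := by
        rintro c a ⟨m, hm⟩
        exact ⟨m, by rw [map_smul, hm, smul_zero]⟩ }
  by_contra hcon
  push Not at hcon
  have hinj : Function.Injective
      ((E.orthogonalProjectionOnto : H →ₗ[ℂ] E) ∘ₗ Z.subtype) := by
    rw [injective_iff_map_eq_zero]
    rintro ⟨y, m, hm⟩ hy
    have h1 : y ∈ Eᗮ := Submodule.orthogonalProjectionOnto_eq_zero_iff.1 hy
    by_contra h0
    exact hcon y h1 (fun h2 => h0 (Subtype.ext h2)) m hm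
  have : FiniteDimensional ℂ Z := FiniteDimensional.of_injective _ hinj
  have hZ : ∀ y ∈ Z, (B : H →ₗ[ℂ] H) y ∈ Z := by
    rintro y ⟨m, hm⟩
    refine ⟨m + 1, ?_⟩
    rw [pow_succ, mul_apply_eq_comp]
    exact (congrArg _ (adj_shift h hB y)).trans hm
  have h1 : ContinuousLinearMap.adjoint B (h.k 1) = 0 := by
    rw [adj_k h hB one_mem_RHP]
    simp [bl]
  have hsurj : Function.Surjective ((B : H →ₗ[ℂ] H).restrict hZ) :=
    LinearMap.injective_iff_surjective.1 (by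
      rw [injective_iff_map_eq_zero]
      intro y hy
      exact Subtype.ext (shift_inj h hB (congrArg Subtype.val hy)))
  obtain ⟨y, hy⟩ := hsurj ⟨h.k 1, 1, by simpa using h1⟩
  have h2 : B y = h.k 1 := congrArg Subtype.val hy
  have h3 := adj_shift h hB y
  rw [h2, h1] at h3
  rw [← h3, map_zero] at h2
  exact k_ne h one_mem_RHP h2.symm

/-- The vectors at which the hyponormality inequality for the relation `Γ` is an equality. -/
def Tight (Γ : Submodule ℂ (H × H)) (g : H) : Prop :=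
  ∃ u w v : H, (g, u) ∈ Γ ∧ (w, v) ∈ Γ ∧ (⟪g, v⟫_ℂ).re = ‖w‖ ^ 2 ∧ ‖u‖ ≤ ‖w‖

theorem kronecker {Γ : Submodule ℂ (H × H)}
    (cross : ∀ g u w v, (g, u) ∈ Γ → (w, v) ∈ Γ →
      ∀ z ∈ RHP, h.ev u z * h.ev w z = h.ev g z * h.ev v z)
    (inv : ∀ g u, (g, u) ∈ Γ → (B g, B u) ∈ Γ)
    {E₁ E₂ : Submodule ℂ H} [FiniteDimensional ℂ E₁] [FiniteDimensional ℂ E₂]
    (dom : ∀ g ∈ E₁ᗮ, ∃ u, (g, u) ∈ Γ)
    (big : ∀ y, (∀ g, Tight Γ g → ⟪g, y⟫_ℂ = 0) → y ∈ E₂) :
    ∃ g u, (g, u) ∈ Γ ∧ g ≠ 0 ∧ IsRat (h.ev g) ∧ IsRat (h.ev u) := by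
  have adj : ∀ g u w v, (g, u) ∈ Γ → (w, v) ∈ Γ → (⟪g, v⟫_ℂ).re = ‖w‖ ^ 2 → ‖u‖ ≤ ‖w‖ →
      ∀ a b, (a, b) ∈ Γ → ⟪g, b⟫_ℂ = ⟪w, a⟫_ℂ := by
    intro g u w v h1 h2 h3 h4 a b h5
    set δ := ⟪g, b⟫_ℂ - ⟪w, a⟫_ℂ with hδ
    have h6 : ∀ s : ℂ, 2 * (s * δ).re ≤ ‖s‖ ^ 2 * ‖a‖ ^ 2 := by
      intro s
      have h7 : (w + s • a, v + s • b) ∈ Γ := Γ.add_mem h2 (Γ.smul_mem s h5)
      have h8 := hypo h (cross _ _ _ _ h1 h7)
      rw [norm_add_sq (𝕜 := ℂ), inner_add_right, inner_smul_right, inner_smul_right, norm_smul,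
        mul_pow, add_re, h3] at h8
      simp only [RCLike.re_to_complex] at h8
      have h9 := pow_le_pow_left₀ (norm_nonneg _) h4 2
      rw [hδ, mul_sub, sub_re]
      linarith
    set t : ℝ := (‖a‖ ^ 2 + 1)⁻¹ with ht
    have ht0 : 0 < t := by positivity
    have ht1 : t * ‖a‖ ^ 2 ≤ 1 := by
      rw [ht, inv_mul_le_iff₀ (by positivity)]
      linarith
    have h7 := h6 (t * conj δ)
    rw [mul_assoc, conj_mul', norm_mul, Complex.norm_conj, Complex.norm_real,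
      Real.norm_of_nonneg ht0.le, ← ofReal_pow, ← ofReal_mul, ofReal_re] at h7
    have h8 : t * ‖δ‖ ^ 2 * (t * ‖a‖ ^ 2) ≤ t * ‖δ‖ ^ 2 * 1 :=
      mul_le_mul_of_nonneg_left ht1 (by positivity)
    have h9 : t * ‖δ‖ ^ 2 ≤ t * 0 := by nlinarith
    have h10 := le_of_mul_le_mul_left h9 ht0
    exact sub_eq_zero.1 (norm_eq_zero.1 (pow_eq_zero_iff two_ne_zero |>.1
      (le_antisymm h10 (by positivity))))
  have hTB : ∀ g, Tight Γ g → Tight Γ (B g) := by
    rintro g ⟨u, w, v, h1, h2, h3, h4⟩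
    refine ⟨B u, B w, B v, inv _ _ h1, inv _ _ h2, ?_, ?_⟩
    · rw [inner_shift h hB, norm_shift h hB, h3]
    · rwa [norm_shift h hB, norm_shift h hB]
  let E : Submodule ℂ H := (Submodule.span ℂ {g | Tight Γ g})ᗮ
  have hE : ∀ y, y ∈ E ↔ ∀ g, Tight Γ g → ⟪g, y⟫_ℂ = 0 := fun y => by
    refine ⟨fun hy g hg => hy g (Submodule.subset_span hg), fun hy g hg => ?_⟩
    induction hg using Submodule.span_induction with
    | mem x hx => exact hy x hx
    | zero => simp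
    | add x y _ _ hx hy => rw [inner_add_left, hx, hy, add_zero]
    | smul a x _ hx => rw [inner_smul_left, hx, mul_zero]
  have : FiniteDimensional ℂ E :=
    Submodule.finiteDimensional_of_le fun y hy => big y ((hE y).1 hy)
  have hEr := rat_of_invariant h hB (E := E) fun y hy => (hE _).2 fun g hg => by
    rw [ContinuousLinearMap.adjoint_inner_right]
    exact (hE y).1 hy _ (hTB g hg)
  obtain ⟨a, ha, ha0, m, hm⟩ := exists_poly_vec h hB E₁
  obtain ⟨b, hab⟩ := dom a ha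
  refine ⟨a, b, hab, ha0, rat_of_pow h hB m a ?_, rat_of_pow h hB m b (hEr _ ((hE _).2 ?_))⟩
  · rw [hm]
    exact ⟨1, 0, one_ne_zero, fun z _ => by simp [ev_zero]⟩
  · have key : ∀ n : ℕ, ∀ g u w v, (g, u) ∈ Γ → (w, v) ∈ Γ → (⟪g, v⟫_ℂ).re = ‖w‖ ^ 2 →
        ‖u‖ ≤ ‖w‖ → ⟪g, (ContinuousLinearMap.adjoint B ^ n) b⟫_ℂ =
          ⟪w, (ContinuousLinearMap.adjoint B ^ n) a⟫_ℂ := by
      intro n
      induction n with
      | zero => exact fun g u w v h1 h2 h3 h4 => by simpa using adj g u w v h1 h2 h3 h4 a b hab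
      | succ n ih =>
        intro g u w v h1 h2 h3 h4
        rw [pow_succ', mul_apply_eq_comp, mul_apply_eq_comp,
          ContinuousLinearMap.adjoint_inner_right, ContinuousLinearMap.adjoint_inner_right]
        refine ih _ (B u) _ (B v) (inv _ _ h1) (inv _ _ h2) ?_ ?_
        · rw [inner_shift h hB, norm_shift h hB, h3]
        · rwa [norm_shift h hB, norm_shift h hB]
    rintro g ⟨u, w, v, h1, h2, h3, h4⟩
    rw [key m g u w v h1 h2 h3 h4, hm, inner_zero_right]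

end shift

end Pool.Agent.Lib.MP_e968d9_an.FR
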