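import Mathlib
import Pool.Agent.Lib.MP_e968d9_an.FR.Mult

/-!
A composition operator on the Hardy space of the half-plane whose self-commutator has finite
rank has an affine symbol and is normal.
-/

set_option autoImplicit false

open Filter Topology Set MeasureTheory Complex Polynomial
open scoped ENNReal Real ComplexConjugate InnerProductSpace

namespace Pool.Agent.Lib.MP_e968d9_an.FR

variable {H : Type} [NormedAddCommGroup H] [InnerProductSpace ℂ H] [CompleteSpace H]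

lemma pull (L : H →L[ℂ] H) (E : Submodule ℂ H) {g : H}
    (hg : g ∈ (E.map (ContinuousLinearMap.adjoint L : H →ₗ[ℂ] H))ᗮ) : L g ∈ Eᗮ := fun u hu => by
  rw [← ContinuousLinearMap.adjoint_inner_left]
  exact hg _ ⟨u, hu, rfl⟩

lemma fin_comap (L : H →L[ℂ] H) (E E₀ : Submodule ℂ H) [FiniteDimensional ℂ E]
    [FiniteDimensional ℂ E₀] (hL : ∀ y ∈ E₀ᗮ, L y = 0 → y = 0) :
    FiniteDimensional ℂ (E.comap (L : H →ₗ[ℂ] H)) := by
  refine FiniteDimensional.of_injective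
    (((L : H →ₗ[ℂ] H).restrict (p := E.comap (L : H →ₗ[ℂ] H)) (q := E) fun x hx => hx).prod
      ((E₀.orthogonalProjectionOnto : H →ₗ[ℂ] E₀) ∘ₗ (E.comap (L : H →ₗ[ℂ] H)).subtype)) ?_
  rw [injective_iff_map_eq_zero]
  intro y hy
  exact Subtype.ext (hL y (Submodule.orthogonalProjectionOnto_eq_zero_iff.1 (congrArg Prod.snd hy))
    (congrArg Subtype.val (congrArg Prod.fst hy)))

lemma exists_ext (S B : H →L[ℂ] H) (D : Submodule ℂ H) (hb : ∀ f ∈ D, ‖S (B f)‖ ≤ ‖S f‖) :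
    ∃ A : H →L[ℂ] H, (∀ f ∈ D, ContinuousLinearMap.adjoint A (S f) = S (B f)) ∧
      ∀ (g : H) (c : ℝ), 0 ≤ c → (∀ f ∈ D, ‖⟪g, S (B f)⟫_ℂ‖ ≤ c * ‖S f‖) → ‖A g‖ ≤ c := by
  let Y : Submodule ℂ H := (D.map (S : H →ₗ[ℂ] H))ᗮ
  let e : D × Y →ₗ[ℂ] H := ((S : H →ₗ[ℂ] H) ∘ₗ D.subtype).coprod Y.subtype
  let F : D × Y →ₗ[ℂ] H := ((S : H →ₗ[ℂ] H) ∘ₗ (B : H →ₗ[ℂ] H) ∘ₗ D.subtype).coprod 0
  have he : ∀ x : D × Y, e x = S x.1 + x.2 := fun x => rfl
  have hF : ∀ x : D × Y, F x = S (B x.1) := fun x => add_zero _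
  have hle : ∀ x : D × Y, ‖S x.1‖ ≤ ‖e x‖ := fun x => by
    have h1 : ⟪S x.1, (x.2 : H)⟫_ℂ = 0 := x.2.2 _ ⟨x.1, x.1.2, rfl⟩
    rw [← sq_le_sq₀ (norm_nonneg _) (norm_nonneg _), he, norm_add_sq (𝕜 := ℂ), h1, map_zero]
    nlinarith [sq_nonneg ‖(x.2 : H)‖]
  have hdense : DenseRange e := by
    have : Dense ((LinearMap.range e : Submodule ℂ H) : Set H) := by
      rw [Submodule.dense_iff_topologicalClosure_eq_top, Submodule.topologicalClosure_eq_top_iff,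
        eq_bot_iff]
      intro y hy
      have h1 : y ∈ Y := by
        rintro _ ⟨f, hf, rfl⟩
        exact hy _ ⟨(⟨f, hf⟩, 0), by simp [he]⟩
      exact inner_self_eq_zero.1 (hy y ⟨(0, ⟨y, h1⟩), by simp [he]⟩)
    exact this
  have hn : ∃ C, ∀ x, ‖F x‖ ≤ C * ‖e x‖ := ⟨1, fun x => by
    rw [hF, one_mul]
    exact (hb _ x.1.2).trans (hle x)⟩
  let St : H →L[ℂ] H := F.extendOfNorm e
  have hSt : ∀ x, St (e x) = S (B x.1) := fun x =>
    (LinearMap.extendOfNorm_eq hdense hn x).trans (hF x)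
  refine ⟨ContinuousLinearMap.adjoint St, fun f hf => ?_, fun g c hc hg => ?_⟩
  · rw [ContinuousLinearMap.adjoint_adjoint]
    simpa [he] using hSt (⟨f, hf⟩, 0)
  · have h1 : ∀ x : H, ‖⟪ContinuousLinearMap.adjoint St g, x⟫_ℂ‖ ≤ c * ‖x‖ := by
      intro x
      refine hdense.induction (P := fun x => ‖⟪ContinuousLinearMap.adjoint St g, x⟫_ℂ‖ ≤ c * ‖x‖)
        ?_ (isClosed_le (by fun_prop) (by fun_prop)) x
      rintro _ ⟨y, rfl⟩
      rw [ContinuousLinearMap.adjoint_inner_left, hSt]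
      exact (hg _ y.1.2).trans (mul_le_mul_of_nonneg_left (hle y) hc)
    have h2 := h1 (ContinuousLinearMap.adjoint St g)
    rw [inner_self_eq_norm_sq_to_K, norm_pow, RCLike.norm_ofReal, abs_norm, sq] at h2
    rcases (norm_nonneg (ContinuousLinearMap.adjoint St g)).eq_or_lt with h0 | h0
    · rw [← h0]
      exact hc
    · exact le_of_mul_le_mul_right h2 h0

lemma re_inner_self (w : H) : (⟪w, w⟫_ℂ).re = ‖w‖ ^ 2 := inner_self_eq_norm_sq (𝕜 := ℂ) w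

variable (h : Hardy H)

theorem affine_of_fin {φ : ℂ → ℂ} (hd : DifferentiableOn ℂ φ RHP) (hm : MapsTo φ RHP RHP)
    {T : H →L[ℂ] H} (hT : ∀ f, ∀ v ∈ RHP, h.ev (T f) v = h.ev f (φ v))
    {E₀ : Submodule ℂ H} [FiniteDimensional ℂ E₀]
    (hK : ∀ g, ContinuousLinearMap.adjoint T (T g) - T (ContinuousLinearMap.adjoint T g) ∈ E₀) :
    ∃ a b : ℂ, a ≠ 0 ∧ ∀ z ∈ RHP, φ z = a * z + b := by
  obtain ⟨c, hc, hre⟩ := h.re_lower hm hT
  have hnc := Hardy.not_const hc hre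
  have hinj : ∀ f, T f = 0 → f = 0 := fun f hf =>
    h.ext_ev (identity_comp hd hm hnc (h.ev_diff f) (h.ev_diff 0) fun z hz => by
      rw [← hT f z hz, hf, ev_zero, ev_zero])
  obtain ⟨B, hB, -⟩ := exists_mult h bl_diff fun z hz => norm_bl hz
  obtain ⟨Θ, hΘ, hΘn⟩ := exists_mult h (m := fun z => bl (φ z)) (bl_diff.comp hd hm)
    fun z hz => norm_bl (hm hz)
  set S := ContinuousLinearMap.adjoint T with hS
  have hΘT : ∀ f, Θ (T f) = T (B f) := fun f => h.ext_ev fun v hv => by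
    rw [hΘ _ v hv, hT _ v hv, hT _ v hv, hB _ _ (hm hv)]
  have hΘB : ∀ f, Θ (B f) = B (Θ f) := fun f => h.ext_ev fun v hv => by
    rw [hΘ _ v hv, hB _ v hv, hB _ v hv, hΘ _ v hv]
    ring
  have hG : ∀ f ∈ E₀ᗮ, ∀ g, ⟪T f, T g⟫_ℂ = ⟪S f, S g⟫_ℂ := fun f hf g => by
    have h1 := Submodule.inner_left_of_mem_orthogonal (hK g) hf
    rwa [inner_sub_right, ContinuousLinearMap.adjoint_inner_right, sub_eq_zero,
      ← ContinuousLinearMap.adjoint_inner_left T (S g) f] at h1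
  have hGn : ∀ f ∈ E₀ᗮ, ‖T f‖ = ‖S f‖ := fun f hf => by
    rw [← sq_eq_sq₀ (norm_nonneg _) (norm_nonneg _), ← re_inner_self, ← re_inner_self, hG f hf]
  let E₁ : Submodule ℂ H := E₀ ⊔ E₀.map (ContinuousLinearMap.adjoint B : H →ₗ[ℂ] H)
  have hD1 : ∀ f ∈ E₁ᗮ, f ∈ E₀ᗮ := fun f hf => Submodule.orthogonal_le le_sup_left hf
  have hD2 : ∀ f ∈ E₁ᗮ, B f ∈ E₀ᗮ := fun f hf =>
    pull B E₀ (Submodule.orthogonal_le le_sup_right hf)
  have hSB : ∀ f ∈ E₁ᗮ, ‖S (B f)‖ = ‖Θ (T f)‖ := fun f hf => by rw [hΘT, hGn _ (hD2 f hf)]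
  obtain ⟨A, hA1, hA2⟩ := exists_ext S B E₁ᗮ fun f hf => by
    rw [hSB f hf, ← hGn _ (hD1 f hf)]
    exact hΘn _
  set St := ContinuousLinearMap.adjoint A with hSt
  have hAS : ∀ f ∈ E₀ᗮ, ‖A (S f)‖ ≤ ‖ContinuousLinearMap.adjoint Θ (T f)‖ := fun f hf =>
    hA2 _ _ (norm_nonneg _) fun g hg => by
      rw [← hG f hf, ← hΘT, ← ContinuousLinearMap.adjoint_inner_left, ← hGn _ (hD1 g hg)]
      exact norm_inner_le_norm _ _
  let L : H →L[ℂ] H := T ∘L A - ContinuousLinearMap.adjoint B ∘L T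
  let E₂ : Submodule ℂ H :=
    E₁.map (ContinuousLinearMap.adjoint L : H →ₗ[ℂ] H) ⊔ Submodule.span ℂ {h.k (φ 1)}
  let ΓF : Submodule ℂ (H × H) :=
    { carrier := {p | B (T p.2) = T p.1}
      add_mem' := fun {p q} hp hq => by
        show B (T (p.2 + q.2)) = T (p.1 + q.1)
        rw [map_add, map_add, map_add, hp, hq]
      zero_mem' := by simp
      smul_mem' := fun s p hp => by
        show B (T (s • p.2)) = T (s • p.1)
        rw [map_smul, map_smul, map_smul, hp] }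
  have hΓF : ∀ g u, (g, u) ∈ ΓF → ∀ z ∈ RHP, bl z * h.ev u (φ z) = h.ev g (φ z) :=
    fun g u hgu z hz => by
      have h1 : B (T u) = T g := hgu
      rw [← hT u z hz, ← hB _ z hz, h1, hT g z hz]
  have hdom : ∀ g ∈ E₂ᗮ, (g, A g) ∈ ΓF := fun g hg => by
    have h1 : L g ∈ E₁ᗮ := pull L E₁ (Submodule.orthogonal_le le_sup_left hg)
    have h2 : L g = T (A g) - ContinuousLinearMap.adjoint B (T g) := rfl
    have h3 : ⟪L g, L g⟫_ℂ = 0 := by
      nth_rewrite 2 [h2]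
      rw [inner_sub_right, ← ContinuousLinearMap.adjoint_inner_left T,
        ← ContinuousLinearMap.adjoint_inner_left A, hA1 _ h1,
        ContinuousLinearMap.adjoint_inner_right, ContinuousLinearMap.adjoint_inner_left, sub_self]
    rw [inner_self_eq_zero, h2, sub_eq_zero] at h3
    have h4 : ⟪h.k (φ 1), g⟫_ℂ = 0 :=
      hg _ (Submodule.mem_sup_right (Submodule.mem_span_singleton_self _))
    rw [h.inner_eq, mul_eq_zero, or_iff_right Hardy.two_pi_ne, ← hT g 1 one_mem_RHP] at h4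
    have h5 := decomp h hB (T g)
    rw [h4, mul_zero, zero_smul, add_zero, ← h3] at h5
    exact h5.symm
  have crossF : ∀ g u w v, (g, u) ∈ ΓF → (w, v) ∈ ΓF →
      ∀ z ∈ RHP, h.ev u z * h.ev w z = h.ev g z * h.ev v z := fun g u w v h1 h2 =>
    identity_comp hd hm hnc ((h.ev_diff u).mul (h.ev_diff w)) ((h.ev_diff g).mul (h.ev_diff v))
      fun z hz => sub_eq_zero.1 (cancel bl_diff
        ((((h.ev_diff u).mul (h.ev_diff w)).sub ((h.ev_diff g).mul (h.ev_diff v))).comp hd hm)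
        (fun y hy => by
          simp only [Function.comp, Pi.sub_apply, Pi.mul_apply]
          rw [← hΓF g u h1 y hy, ← hΓF w v h2 y hy]
          ring) bl_ne z hz)
  let ΓΘ : Submodule ℂ (H × H) := (Θ : H →ₗ[ℂ] H).graph
  have hΓΘ : ∀ g u, (g, u) ∈ ΓΘ ↔ u = Θ g := fun g u => LinearMap.mem_graph_iff _ _
  have crossΘ : ∀ g u w v, (g, u) ∈ ΓΘ → (w, v) ∈ ΓΘ →
      ∀ z ∈ RHP, h.ev u z * h.ev w z = h.ev g z * h.ev v z := fun g u w v h1 h2 z hz => by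
    rw [(hΓΘ _ _).1 h1, (hΓΘ _ _).1 h2, hΘ _ z hz, hΘ _ z hz]
    ring
  let E₃ : Submodule ℂ H := E₁ ⊔ E₂.map (ContinuousLinearMap.adjoint S : H →ₗ[ℂ] H) ⊔
    E₂.map (ContinuousLinearMap.adjoint (St ∘L S) : H →ₗ[ℂ] H)
  have good : ∀ f ∈ E₃ᗮ, Tight ΓF (S f) ∧ Tight ΓΘ (T f) := by
    intro f hf
    have h1 : f ∈ E₁ᗮ := Submodule.orthogonal_le (le_sup_left.trans le_sup_left) hf
    have h2 := hdom _ (pull S E₂ (Submodule.orthogonal_le (le_sup_right.trans le_sup_left) hf))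
    have h3 : (St (S f), A (St (S f))) ∈ ΓF :=
      hdom _ (pull (St ∘L S) E₂ (Submodule.orthogonal_le le_sup_right hf))
    have h4 : (⟪S f, A (St (S f))⟫_ℂ).re = ‖St (S f)‖ ^ 2 := by
      rw [← ContinuousLinearMap.adjoint_inner_left A, re_inner_self]
    have h5 : (⟪T f, Θ (ContinuousLinearMap.adjoint Θ (T f))⟫_ℂ).re =
        ‖ContinuousLinearMap.adjoint Θ (T f)‖ ^ 2 := by
      rw [← ContinuousLinearMap.adjoint_inner_left Θ, re_inner_self]
    have h6 := hypo h (crossF _ _ _ _ h2 h3)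
    have h7 := hypo h (crossΘ (T f) _ (ContinuousLinearMap.adjoint Θ (T f)) _
      ((hΓΘ _ _).2 rfl) ((hΓΘ _ _).2 rfl))
    have h8 : ‖St (S f)‖ = ‖Θ (T f)‖ := by rw [hA1 f h1, hSB f h1]
    have h9 := hAS f (hD1 f h1)
    have h10 : ‖St (S f)‖ ≤ ‖A (S f)‖ := by
      rw [← sq_le_sq₀ (norm_nonneg _) (norm_nonneg _)]
      linarith
    have h11 : ‖ContinuousLinearMap.adjoint Θ (T f)‖ ≤ ‖Θ (T f)‖ := by
      rw [← sq_le_sq₀ (norm_nonneg _) (norm_nonneg _)]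
      linarith
    exact ⟨⟨_, _, _, h2, h3, h4, by linarith⟩,
      ⟨_, _, _, (hΓΘ _ _).2 rfl, (hΓΘ _ _).2 rfl, h5, by linarith⟩⟩
  have f1 := fin_comap T E₃ ⊥ fun y _ hy => hinj y hy
  have f2 := fin_comap S E₃ E₀ fun y hy h0 => hinj y (by
    rw [← norm_eq_zero, hGn y hy, h0, norm_zero])
  obtain ⟨g₁, u₁, hg₁, hg₁0, ⟨P₁, Q₁, hP₁, hPQ₁⟩, P₂, Q₂, hP₂, hPQ₂⟩ :=
    kronecker h hB crossF (fun g u hgu => by
      have h1 : B (T u) = T g := hgu
      show B (T (B u)) = T (B g)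
      rw [← hΘT, ← hΘT, ← hΘB, h1]) (E₂ := E₃.comap (T : H →ₗ[ℂ] H))
      (fun g hg => ⟨_, hdom g hg⟩) (fun y hy => by
        show T y ∈ E₃
        rw [← E₃.orthogonal_orthogonal]
        intro f hf
        rw [← ContinuousLinearMap.adjoint_inner_left]
        exact hy _ (good f hf).1)
  obtain ⟨g₂, u₂, hg₂, hg₂0, ⟨P₃, Q₃, hP₃, hPQ₃⟩, P₄, Q₄, hP₄, hPQ₄⟩ :=
    kronecker h hB crossΘ (fun g u hgu => by
      rw [hΓΘ] at hgu ⊢
      rw [hgu, hΘB]) (E₁ := ⊥) (E₂ := E₃.comap (S : H →ₗ[ℂ] H))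
      (fun g _ => ⟨_, (hΓΘ _ _).2 rfl⟩) (fun y hy => by
        show S y ∈ E₃
        rw [← E₃.orthogonal_orthogonal]
        intro f hf
        rw [ContinuousLinearMap.adjoint_inner_right]
        exact hy _ (good f hf).2)
  have hQ : ∀ {g : H} {P Q : ℂ[X]}, g ≠ 0 → P ≠ 0 → (∀ z ∈ RHP, P.eval z * h.ev g z = Q.eval z) →
      Q ≠ 0 := by
    intro g P Q h1 h2 h3 h4
    refine h1 (h.ext_ev fun v hv => ?_)
    rw [ev_zero]
    exact cancel (poly_diff P) (h.ev_diff g) (fun z hz => by rw [h3 z hz, h4, eval_zero])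
      (fun h0 => h2 (poly_zero h0)) v hv
  have hr : IsRat φ := by
    have h1 : ∀ z ∈ RHP,
        (P₄ * Q₃ - P₃ * Q₄).eval z * φ z = (P₄ * Q₃ + P₃ * Q₄).eval z := fun z hz => by
      have e1 := hPQ₃ z hz
      have e2 := hPQ₄ z hz
      have e3 := add_one_ne (hm hz)
      rw [(hΓΘ _ _).1 hg₂, hΘ _ z hz, bl] at e2
      field_simp at e2
      simp only [eval_mul, eval_add, eval_sub]
      linear_combination P₃.eval z * e2 - P₄.eval z * (φ z - 1) * e1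
    refine ⟨_, _, fun h0 => mul_ne_zero hP₄ (hQ hg₂0 hP₃ hPQ₃) (poly_zero fun z hz => ?_), h1⟩
    have e1 := h1 z hz
    have e2 := congrArg (eval z) h0
    rw [h0] at e1
    simp only [eval_mul, eval_add, eval_sub, eval_zero] at e1 e2 ⊢
    linear_combination (e2 - e1) / 2
  have h1 : ∀ z ∈ RHP,
      z * (Q₂ * P₁ - Q₁ * P₂).eval (φ z) = (Q₂ * P₁ + Q₁ * P₂).eval (φ z) := fun z hz => by
    have e1 := hPQ₁ _ (hm hz)
    have e2 := hPQ₂ _ (hm hz)
    have e3 := add_one_ne hz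
    have e4 := hΓF _ _ hg₁ z hz
    rw [bl] at e4
    field_simp at e4
    simp only [eval_mul, eval_add, eval_sub]
    rw [← e1, ← e2]
    linear_combination P₁.eval (φ z) * P₂.eval (φ z) * e4
  obtain ⟨a, b, hab⟩ := affine_of_rat hd hm hc hre hr (fun h0 =>
    mul_ne_zero (hQ hg₁0 hP₁ hPQ₁) hP₂ (poly_comp_zero hd hm hnc fun z hz => by
      have e1 := h1 z hz
      have e2 := congrArg (eval (φ z)) h0
      rw [h0] at e1
      simp only [eval_mul, eval_add, eval_sub, eval_zero] at e1 e2 ⊢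
      linear_combination (-e2 - e1) / 2)) h1
  exact ⟨a, b, fun h0 => hnc ⟨b, fun z hz => by rw [hab z hz, h0, zero_mul, zero_add]⟩, hab⟩

lemma tendsto_inv_line (p : ℂ) : Tendsto (fun n : ℕ => (p - n * I)⁻¹) atTop (𝓝 0) := by
  refine tendsto_inv₀_cobounded.comp (tendsto_norm_atTop_iff_cobounded.1 ?_)
  refine tendsto_atTop_mono (f := fun n : ℕ => (n : ℝ) + -‖p‖) (fun n => ?_)
    (tendsto_atTop_add_const_right _ _ tendsto_natCast_atTop_atTop)
  have h1 := norm_sub_le p (p - n * I)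
  rw [sub_sub_cancel, norm_mul, norm_I, mul_one, Complex.norm_natCast] at h1
  linarith

lemma shift_eq {E₀ : Submodule ℂ H} [FiniteDimensional ℂ E₀] {s t : ℝ} (hs : 0 ≤ s) (ht : 0 ≤ t)
    (hE : ∀ w ∈ RHP, h.k (w + s) - h.k (w + t) ∈ E₀) : s = t := by
  have hw : ∀ n : ℕ, (1 + n * I : ℂ) ∈ RHP := fun n => by simp
  have hw' : ∀ (n : ℕ) (r : ℝ), 0 ≤ r → (1 + n * I + r : ℂ) ∈ RHP := fun n r hr => by
    show 0 < (1 + n * I + r : ℂ).re
    simp
    linarith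
  have hk : ∀ (n : ℕ) (r : ℝ), 0 ≤ r → ‖h.k (1 + n * I + r)‖ ≤ 2 := fun n r hr => by
    rw [← sq_le_sq₀ (norm_nonneg _) (by norm_num), h.norm_k_sq (hw' n r hr),
      div_le_iff₀ (hw' n r hr)]
    simp
    nlinarith [Real.pi_le_four]
  have : ProperSpace E₀ := FiniteDimensional.proper_rclike ℂ E₀
  let y : ℕ → E₀ := fun n => ⟨_, hE _ (hw n)⟩
  obtain ⟨l, -, ψ, hψ, hl⟩ := tendsto_subseq_of_bounded (Metric.isBounded_closedBall
    (x := (0 : E₀)) (r := 4)) (x := y) fun n => by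
      rw [mem_closedBall_zero_iff]
      exact le_trans (norm_sub_le _ _) (by linarith [hk n s hs, hk n t ht])
  have hl' : Tendsto (fun n => (y (ψ n) : H)) atTop (𝓝 l) :=
    (continuous_subtype_val.tendsto l).comp hl
  have hev : ∀ (n : ℕ), ∀ v ∈ RHP,
      h.ev (y n) v = (v + 1 + s - n * I)⁻¹ - (v + 1 + t - n * I)⁻¹ := fun n v hv => by
    show h.ev (h.k _ - h.k _) v = _
    rw [h.ev_sub, h.ev_k hv (hw' n s hs), h.ev_k hv (hw' n t ht)]
    congr 2 <;> simp <;> ring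
  have hl0 : (l : H) = 0 := h.ext_ev fun v hv => by
    have h1 : Tendsto (fun n => h.ev (y (ψ n)) v) atTop (𝓝 (h.ev l v)) :=
      (tendsto_const_nhds.inner hl').const_mul _
    have h2 := ((tendsto_inv_line (v + 1 + s)).sub (tendsto_inv_line (v + 1 + t))).comp
      hψ.tendsto_atTop
    rw [ev_zero, tendsto_nhds_unique h1 (h2.congr fun n => (hev _ v hv).symm), sub_zero]
  have h1 : ∀ n : ℕ, ‖((2 + s : ℂ))⁻¹ - (2 + t : ℂ)⁻¹‖ ^ 2 * (4 * π * 1) ≤ ‖(y n : H)‖ ^ 2 :=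
    fun n => by
      have h2 := h.norm_ev_sq_le (y n) (hw n)
      rw [hev n _ (hw n)] at h2
      convert h2 using 4
      · congr 1 <;> ring
      · simp
  have h2 := ge_of_tendsto' (hl'.norm.pow 2) fun n => h1 (ψ n)
  rw [hl0, norm_zero, sq (0 : ℝ), mul_zero] at h2
  have h3 : ‖((2 + s : ℂ))⁻¹ - (2 + t : ℂ)⁻¹‖ ^ 2 ≤ 0 :=
    nonpos_of_mul_nonpos_left h2 (by positivity)
  have h4 := norm_eq_zero.1 (pow_eq_zero_iff two_ne_zero |>.1 (le_antisymm h3 (by positivity)))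
  rw [sub_eq_zero, inv_inj, add_right_inj] at h4
  exact_mod_cast h4

theorem normal_of_fin {φ : ℂ → ℂ} (hd : DifferentiableOn ℂ φ RHP) (hm : MapsTo φ RHP RHP)
    {T : H →L[ℂ] H} (hT : ∀ f, ∀ v ∈ RHP, h.ev (T f) v = h.ev f (φ v))
    {E₀ : Submodule ℂ H} [FiniteDimensional ℂ E₀]
    (hK : ∀ g, ContinuousLinearMap.adjoint T (T g) - T (ContinuousLinearMap.adjoint T g) ∈ E₀) :
    ∃ (a : ℝ) (b : ℂ), 0 < a ∧ 0 ≤ b.re ∧ (a = 1 ∨ b.re = 0) ∧ ∀ z ∈ RHP, φ z = a * z + b := by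
  obtain ⟨c, b, hc, hcb⟩ := affine_of_fin h hd hm hT hK
  obtain ⟨h1, h2, h3⟩ := affine_coeff (b := b) hc fun z hz => by
    rw [← hcb z hz]
    exact hm hz
  obtain ⟨a, rfl⟩ : ∃ a : ℝ, c = a := ⟨c.re, (Complex.conj_eq_iff_re.1
    (Complex.conj_eq_iff_im.2 h1)).symm⟩
  rw [ofReal_re] at h2
  refine ⟨a, b, h2, h3, ?_, hcb⟩
  have hmem : ∀ w ∈ RHP, (w + conj b) / a ∈ RHP := fun w hw => by
    have hw' : 0 < w.re := hw
    show 0 < ((w + conj b) / a).re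
    rw [div_ofReal_re, add_re, conj_re]
    positivity
  have hTk : ∀ w ∈ RHP, T (h.k w) = (a : ℂ)⁻¹ • h.k ((w + conj b) / a) := fun w hw =>
    h.ext_ev fun v hv => by
      rw [hT _ v hv, h.ev_smul, h.ev_k (hm hv) hw, h.ev_k hv (hmem w hw), hcb v hv, ← mul_inv]
      congr 1
      simp only [map_div₀, map_add, conj_conj, conj_ofReal]
      field_simp
      ring
  have h4 := shift_eq h (E₀ := E₀) (s := 2 * b.re) (t := 2 * b.re / a) (by positivity)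
    (by positivity) fun w hw => by
      have h5 := E₀.smul_mem (a : ℂ) (hK (h.k w))
      rw [hTk w hw, map_smul, h.adjoint_k hT (hmem w hw), h.adjoint_k hT hw, hTk _ (hm hw),
        ← smul_sub, smul_smul, mul_inv_cancel₀ hc, one_smul, hcb _ (hmem w hw), hcb w hw] at h5
      have e : ((2 * b.re : ℝ) : ℂ) = b + conj b := (Complex.add_conj b).symm
      convert h5 using 3
      · rw [e]
        field_simp
        ring
      · rw [ofReal_div, e]
        field_simp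
        ring
  rw [eq_div_iff h2.ne'] at h4
  have h5 : (a - 1) * b.re = 0 := by linarith
  exact (mul_eq_zero.1 h5).imp sub_eq_zero.1 id

end Pool.Agent.Lib.MP_e968d9_an.FR
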