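import Mathlib
import Pool.Agent.Lib.MP_e968d9_an.FR.Main

/-!
Transfer of the finite rank theorem to an arbitrary Hilbert space realisation of the Hardy space.
-/

set_option autoImplicit false

open Filter Topology Set MeasureTheory Complex
open scoped ENNReal Real ComplexConjugate InnerProductSpace

namespace Pool.Agent.Lib.MP_e968d9_an.FR

theorem exists_equiv {H : Type*} [NormedAddCommGroup H] [InnerProductSpace ℂ H]
    (ι : H →ₗ[ℂ] (ℂ → ℂ)) (hdiff : ∀ f, DifferentiableOn ℂ (ι f) RHP)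
    (hnorm : ∀ f, N (ι f) = ENNReal.ofReal (‖f‖ ^ 2))
    (hsurj : ∀ F : ℂ → ℂ, DifferentiableOn ℂ F RHP → N F < ⊤ → ∃ f, ∀ z ∈ RHP, ι f z = F z) :
    ∃ e : H ≃ₗᵢ[ℂ] HS, ∀ f, ∀ v ∈ RHP, hardyModel.ev (e f) v = ι f v := by
  have hU : ∀ f : H, ∃ g : HS, ∀ v ∈ RHP, hardyModel.ev g v = ι f v := fun f => by
    obtain ⟨g, hg, -⟩ := hardyModel.exists_ev (hdiff f)
      (by rw [hnorm]; exact ENNReal.ofReal_lt_top)
    exact ⟨g, hg⟩
  choose U hU using hU
  let U' : H →ₗᵢ[ℂ] HS :=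
    { toFun := U
      map_add' := fun f g => hardyModel.ext_ev fun v hv => by
        rw [hardyModel.ev_add, hU _ v hv, hU _ v hv, hU _ v hv, map_add, Pi.add_apply]
      map_smul' := fun c f => hardyModel.ext_ev fun v hv => by
        rw [RingHom.id_apply, hardyModel.ev_smul, hU _ v hv, hU _ v hv, map_smul, Pi.smul_apply,
          smul_eq_mul]
      norm_map' := fun f => by
        have h1 := hardyModel.N_ev (U f)
        rw [N_congr (hU f), hnorm,
          ENNReal.ofReal_eq_ofReal_iff (by positivity) (by positivity)] at h1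
        exact ((sq_eq_sq₀ (norm_nonneg _) (norm_nonneg _)).1 h1).symm }
  have hs : Function.Surjective U' := fun g => by
    obtain ⟨f, hf⟩ := hsurj _ (hardyModel.ev_diff g)
      (by rw [hardyModel.N_ev]; exact ENNReal.ofReal_lt_top)
    exact ⟨f, hardyModel.ext_ev fun v hv => (hU f v hv).trans (hf v hv)⟩
  exact ⟨LinearIsometryEquiv.ofSurjective U' hs, hU⟩

theorem normal_of_model {H : Type*} [NormedAddCommGroup H] [InnerProductSpace ℂ H]
    [CompleteSpace H] (ι : H →ₗ[ℂ] (ℂ → ℂ)) (hdiff : ∀ f, DifferentiableOn ℂ (ι f) RHP)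
    (hnorm : ∀ f, N (ι f) = ENNReal.ofReal (‖f‖ ^ 2))
    (hsurj : ∀ F : ℂ → ℂ, DifferentiableOn ℂ F RHP → N F < ⊤ → ∃ f, ∀ z ∈ RHP, ι f z = F z)
    {φ : ℂ → ℂ} (hd : DifferentiableOn ℂ φ RHP) (hm : MapsTo φ RHP RHP) {T : H →L[ℂ] H}
    (hT : ∀ f, ∀ z ∈ RHP, ι (T f) z = ι f (φ z))
    (hK : FiniteDimensional ℂ
      (LinearMap.range ((star T * T - T * star T : H →L[ℂ] H) : H →ₗ[ℂ] H))) :
    ∃ (a : ℝ) (b : ℂ), 0 < a ∧ 0 ≤ b.re ∧ (a = 1 ∨ b.re = 0) ∧ ∀ z ∈ RHP, φ z = a * z + b := by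
  obtain ⟨e, he⟩ := exists_equiv ι hdiff hnorm hsurj
  let T' : HS →L[ℂ] HS := (e.toContinuousLinearEquiv : H →L[ℂ] HS) ∘L T ∘L
    (e.symm.toContinuousLinearEquiv : HS →L[ℂ] H)
  have h1 : ∀ g, T' g = e (T (e.symm g)) := fun g => rfl
  have h2 : ∀ g, ContinuousLinearMap.adjoint T' g =
      e (ContinuousLinearMap.adjoint T (e.symm g)) := fun g => by
    refine ext_inner_right ℂ fun f => ?_
    rw [ContinuousLinearMap.adjoint_inner_left, h1, ← e.symm.inner_map_map, e.symm_apply_apply,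
      ← e.symm.inner_map_map (e _), e.symm_apply_apply, ContinuousLinearMap.adjoint_inner_left]
  refine normal_of_fin hardyModel hd hm (T := T') (fun g v hv => ?_)
    (E₀ := (LinearMap.range ((star T * T - T * star T : H →L[ℂ] H) : H →ₗ[ℂ] H)).map
      (e.toLinearEquiv : H →ₗ[ℂ] HS)) fun g => ?_
  · rw [h1, he _ v hv, hT _ v hv, ← he _ _ (hm hv), e.apply_symm_apply]
  · refine ⟨_, ⟨e.symm g, rfl⟩, ?_⟩
    rw [h2, h2, h1, h1, e.symm_apply_apply, e.symm_apply_apply, ← map_sub]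
    rfl

end Pool.Agent.Lib.MP_e968d9_an.FR
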